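import Mathlib
import Pool.Agent.H903.Tardif.Core

/-!
# MP_418764_co: the graphs `C_{2d+1}[K_m]` and the statement `H'(n)`

For `d ≥ 2`, `m ≥ 1` and all `n` with `(2d-1)(n-2m) ≤ m` the graph `G = C_{2d+1}[K_m]` has
`χ(G) > n` and `χ(K_n^G) = n`; in particular it is not a counterexample to `H'(n)`.
-/

namespace Pool.Agent.Results.MP_418764_co.SmallExcess

open Pool.Agent.H903.Tardif

/-- The lexicographic product `C[K_m]`. -/
def lex {α : Type*} (C : SimpleGraph α) (m : ℕ) : SimpleGraph (α × Fin m) where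
  Adj x y := C.Adj x.1 y.1 ∨ (x.1 = y.1 ∧ x.2 ≠ y.2)
  symm := ⟨by
    intro x y h
    rcases h with h | ⟨h1, h2⟩
    · exact Or.inl h.symm
    · exact Or.inr ⟨h1.symm, h2.symm⟩⟩
  loopless := ⟨by
    intro x h
    rcases h with h | ⟨_, h2⟩
    · exact C.loopless.irrefl _ h
    · exact h2 rfl⟩

/-- The exponential graph `K_n^G` (loops, which occur only if `G` is `n`-colourable, are left
out): two distinct maps `f, g` are adjacent iff `f x ≠ g y` for every edge `xy` of `G`. -/
def expGraph {V : Type*} (G : SimpleGraph V) (n : ℕ) : SimpleGraph (V → Fin n) where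
  Adj f g := f ≠ g ∧ ∀ x y, G.Adj x y → f x ≠ g y
  symm := ⟨fun _ _ h => ⟨h.1.symm, fun x y hxy e => h.2 y x hxy.symm e.symm⟩⟩
  loopless := ⟨fun _ h => h.1 rfl⟩

theorem result (d m n : ℕ) (hd : 2 ≤ d) (hm : 1 ≤ m)
    (h : (2 * d - 1) * (n - 2 * m) ≤ m) :
    (n : ℕ∞) < (lex (SimpleGraph.cycleGraph (2 * d + 1)) m).chromaticNumber ∧
      (expGraph (lex (SimpleGraph.cycleGraph (2 * d + 1)) m) n).chromaticNumber = n := by
  classical
  obtain ⟨col, hcol⟩ := exists_colouring (m := m) (n := n) d hd hm h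
  -- the fibres of a map
  let F : (Fin (2 * d + 1) × Fin m → Fin n) → Fam m n := fun f k i => f (Fin.ofNat (2 * d + 1) k, i)
  have hR : ∀ f g : Fin (2 * d + 1) × Fin m → Fin n,
      (∀ x y, (lex (SimpleGraph.cycleGraph (2 * d + 1)) m).Adj x y → f x ≠ g y) →
      R d (F f) (F g) := by
    intro f g hfg
    have hcyc : ∀ k, k < 2 * d → (SimpleGraph.cycleGraph (2 * d + 1)).Adj
        (Fin.ofNat (2 * d + 1) k) (Fin.ofNat (2 * d + 1) (k + 1)) := by
      intro k hk
      rw [SimpleGraph.cycleGraph_adj']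
      right
      rw [Fin.sub_def]
      simp only [Fin.ofNat]
      rw [Nat.mod_eq_of_lt (show k < 2 * d + 1 by omega),
        Nat.mod_eq_of_lt (show k + 1 < 2 * d + 1 by omega)]
      have : 2 * d + 1 - k + (k + 1) = (2 * d + 1) + 1 := by omega
      rw [this, Nat.add_mod_left, Nat.mod_eq_of_lt (by omega)]
    have hend : (SimpleGraph.cycleGraph (2 * d + 1)).Adj
        (Fin.ofNat (2 * d + 1) 0) (Fin.ofNat (2 * d + 1) (2 * d)) := by
      rw [SimpleGraph.cycleGraph_adj']
      left
      rw [Fin.sub_def]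
      simp only [Fin.ofNat]
      rw [Nat.mod_eq_of_lt (show 2 * d < 2 * d + 1 by omega), Nat.zero_mod]
      have : 2 * d + 1 - 2 * d + 0 = 1 := by omega
      rw [this, Nat.mod_eq_of_lt (by omega)]
    refine ⟨?_, ?_, ?_, ?_, ?_⟩
    · intro k hk i j
      exact hfg _ _ (Or.inl (hcyc k hk))
    · intro k hk i j
      exact hfg _ _ (Or.inl (hcyc k hk).symm)
    · intro i j
      exact hfg _ _ (Or.inl hend)
    · intro i j
      exact hfg _ _ (Or.inl hend.symm)
    · intro k hk i j hij
      exact hfg _ _ (Or.inr ⟨rfl, hij⟩)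
  constructor
  · -- `G` is not `n`-colourable
    rw [← not_le, SimpleGraph.chromaticNumber_le_iff_colorable]
    rintro ⟨c⟩
    exact hcol (F c) (F c) (hR c c (fun x y hxy => c.valid hxy)) rfl
  · -- `K_n^G` has chromatic number `n`
    apply le_antisymm
    · rw [SimpleGraph.chromaticNumber_le_iff_colorable]
      exact ⟨SimpleGraph.Coloring.mk (fun f => col (F f))
        (fun {f g} hfg => hcol _ _ (hR f g hfg.2))⟩
    · apply SimpleGraph.le_chromaticNumber_iff_colorable.mpr
      intro k hk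
      obtain ⟨c⟩ := hk
      have hinj : Function.Injective (fun a : Fin n => c (fun _ => a)) := by
        intro a b hab
        by_contra hne
        refine c.valid (v := fun _ => a) (w := fun _ => b) ?_ hab
        refine ⟨?_, fun _ _ _ => hne⟩
        intro e
        have := congrFun e (Fin.ofNat (2 * d + 1) 0, ⟨0, hm⟩)
        exact hne this
      simpa using Fintype.card_le_of_injective _ hinj

end Pool.Agent.Results.MP_418764_co.SmallExcess
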